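import Mathlib
import Pool.Agent.N848.LT.Stm

/-!
# Project OL (helper848): Leopoldt's conjecture at an odd prime `p` for composites `k F`

`k` of degree prime to `p`, ramification indices above `p` not divisible by `p - 1`, and every element
of `k` which is a local `p`-th power above `p` and whose divisor is divisible by `p` is a `p`-th power
(`k` is `p`-rational); `F / ℚ` Galois of `p`-power degree, every ramified prime except `p` has only one
prime of `k` above it. Exact statements of the jobs (as `Prop`s).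
-/

set_option autoImplicit false

namespace Pool.Agent.N848.OL

open NumberField IsDedekindDomain Module Pool.Agent.H637R2.Leo Pool.Agent.Y18.LC
open Pool.Agent.N848.LT (Ab NS NSQ S_UP S_INT)

/-- up to `p`-th powers `b` is a unit at `v` congruent to `1` modulo `p ^ 2` (for `v` above `p`: a
local `p`-th power; for the other `v`: the valuation is divisible by `p`) -/
def UnP (p : ℕ) {K : Type} [Field K] [NumberField K] (v : HeightOneSpectrum (𝓞 K)) (b : K) : Prop :=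
  ∃ y : K, v.valuation K (b * y ^ p) = 1 ∧
    v.valuation K (b * y ^ p - 1) ≤ v.valuation K ((p : K) ^ 2)

/-- the ramification indices above `p` are not divisible by `p - 1` -/
def NoMu (p : ℕ) (K : Type) [Field K] [NumberField K] : Prop :=
  ∀ v : HeightOneSpectrum (𝓞 K), (p : 𝓞 K) ∈ v.asIdeal →
    ∀ x : K, v.valuation K x ^ (p - 1) ≠ v.valuation K (p : K)

/-- the relative form of `p`-rationality -/
def PPP (p : ℕ) (F K : Type) [Field F] [NumberField F] [Field K] [NumberField K] [Algebra F K] :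
    Prop :=
  ∀ b : K, b ≠ 0 → (∀ v : HeightOneSpectrum (𝓞 K), UnP p v b) →
    (∃ c : F, Algebra.norm F b = c ^ p) → ∃ y : K, b = y ^ p

/-- `p`-rationality of `k` -/
def VP (p : ℕ) (k : Type) [Field k] [NumberField k] : Prop :=
  ∀ b : k, b ≠ 0 → (∀ v : HeightOneSpectrum (𝓞 k), UnP p v b) → ∃ y : k, b = y ^ p

/-- OL/IMP: better approximations at one prime -/
def S_IMP : Prop := ∀ (p : ℕ) [Fact p.Prime], 2 < p → ∀ (K : Type) [Field K] [NumberField K]
  (v : HeightOneSpectrum (𝓞 K)) (x : K), UnP p v x → ∀ M : ℕ, ∃ y : K,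
    v.valuation K (x * y ^ p) = 1 ∧ v.valuation K (x * y ^ p - 1) ≤ v.valuation K ((p : K) ^ M)

/-- OL/APP: one `y` for all primes above `u` -/
def S_APP : Prop := ∀ (p : ℕ) [Fact p.Prime] (F K : Type) [Field F] [NumberField F] [Field K]
  [NumberField K] [Algebra F K] (u : HeightOneSpectrum (𝓞 F)) (x : K) (M : ℕ),
  (∀ v : HeightOneSpectrum (𝓞 K), Ab v u → ∃ y : K,
    v.valuation K (x * y ^ p) = 1 ∧ v.valuation K (x * y ^ p - 1) ≤ v.valuation K ((p : K) ^ M)) →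
  ∃ y : K, ∀ v : HeightOneSpectrum (𝓞 K), Ab v u →
    v.valuation K (x * y ^ p) = 1 ∧ v.valuation K (x * y ^ p - 1) ≤ v.valuation K ((p : K) ^ M)

/-- OL/MUZ: `p`-th roots of elements close to `1` are close to `1` -/
def S_MUZ : Prop := ∀ (p : ℕ) [Fact p.Prime], 2 < p → ∀ (K : Type) [Field K] [NumberField K]
  (v : HeightOneSpectrum (𝓞 K)), (p : 𝓞 K) ∈ v.asIdeal →
  (∀ x : K, v.valuation K x ^ (p - 1) ≠ v.valuation K (p : K)) →
  ∀ (z : K) (M : ℕ), 1 ≤ M → v.valuation K (z ^ p - 1) ≤ v.valuation K ((p : K) ^ M) →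
    v.valuation K (z - 1) ≤ v.valuation K ((p : K) ^ (M - 1))

/-- OL/CNJ: integrality at all primes above `v` is invariant under the Galois group -/
def S_CNJ : Prop := ∀ (K K' : Type) [Field K] [NumberField K] [Field K'] [NumberField K']
  [Algebra K K'] (v : HeightOneSpectrum (𝓞 K)) (c : K) (x : K'),
  (∀ w : HeightOneSpectrum (𝓞 K'), Ab w v → w.valuation K' x ≤ w.valuation K' (algebraMap K K' c)) →
  ∀ (σ : K' ≃ₐ[K] K') (w : HeightOneSpectrum (𝓞 K')), Ab w v →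
    w.valuation K' (σ x) ≤ w.valuation K' (algebraMap K K' c)

/-- OL/SGM: Galois invariance -/
def S_SGM : Prop := ∀ (p : ℕ) [Fact p.Prime], 2 < p → ∀ (K K' : Type) [Field K] [NumberField K]
  [Field K'] [NumberField K'] [Algebra K K'] (f : K'), f ≠ 0 →
  (∀ w : HeightOneSpectrum (𝓞 K'), UnP p w f) →
  ∀ (σ : K' ≃ₐ[K] K') (w : HeightOneSpectrum (𝓞 K')), UnP p w (σ f)

/-- OL/VFP: descent of local `p`-th powers at the primes above `p` -/
def S_VFP : Prop := ∀ (p : ℕ) [Fact p.Prime], 2 < p → ∀ (K K' : Type) [Field K] [NumberField K]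
  [Field K'] [NumberField K'] [Algebra K K'], IsGalois K K' → finrank K K' = p → NoMu p K' →
  ∀ v : HeightOneSpectrum (𝓞 K), (p : 𝓞 K) ∈ v.asIdeal → ∀ b : K, b ≠ 0 →
    (∀ w : HeightOneSpectrum (𝓞 K'), Ab w v → UnP p w (algebraMap K K' b)) → UnP p v b

/-- OL/RMP: base change of unramified primes (from the library theorem `RAM`) -/
def S_RMP : Prop := ∀ (F' K K' : Type) [Field F'] [NumberField F'] [Field K] [NumberField K]
  [Field K'] [NumberField K'] [Algebra F' K'] [Algebra K K'], IsGalois ℚ F' →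
  IntermediateField.adjoin K (Set.range (algebraMap F' K')) = ⊤ →
  ∀ q : ℕ, q.Prime → Unram F' q → ∀ v : HeightOneSpectrum (𝓞 K), (q : 𝓞 K) ∈ v.asIdeal →
    ∃ w : HeightOneSpectrum (𝓞 K'), Ab w v ∧
      ∀ x : K, w.valuation K' (algebraMap K K' x) = v.valuation K x

/-- OL/VFR: norms at nonsplit primes -/
def S_VFR : Prop := ∀ (p : ℕ) [Fact p.Prime] (F K : Type) [Field F] [NumberField F] [Field K]
  [NumberField K] [Algebra F K], ¬ p ∣ finrank F K → ∀ u : HeightOneSpectrum (𝓞 F), NS K u →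
  ∀ v : HeightOneSpectrum (𝓞 K), Ab v u → ∀ (b : K) (c : F), b ≠ 0 → Algebra.norm F b = c ^ p →
    ∃ y : K, v.valuation K (b * y ^ p) = 1

/-- OL/NMT: no roots of unity of order `p` -/
def S_NMT : Prop := ∀ (p : ℕ) [Fact p.Prime], 2 < p → ∀ (K : Type) [Field K] [NumberField K],
  NoMu p K → ∀ z : K, z ^ p = 1 → z = 1

/-- OL/NMD: `NoMu` goes down -/
def S_NMD : Prop := ∀ (p : ℕ) [Fact p.Prime] (F K : Type) [Field F] [NumberField F]
  [Field K] [NumberField K] [Algebra F K], NoMu p K → NoMu p F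

/-- OL/MUU: `NoMu` goes up in Galois extensions of `p`-power degree -/
def S_MUU : Prop := ∀ (p : ℕ) [Fact p.Prime] (r : ℕ) (k K : Type) [Field k] [NumberField k]
  [Field K] [NumberField K] [Algebra k K], IsGalois k K → finrank k K = p ^ r → NoMu p k → NoMu p K

/-- OL/NMK: fields of small degree -/
def S_NMK : Prop := ∀ (p : ℕ) [Fact p.Prime] (k : Type) [Field k] [NumberField k],
  finrank ℚ k < p - 1 → NoMu p k

/-- OL/HLP: Hilbert 90 -/
def S_HLP : Prop := ∀ (p : ℕ) [Fact p.Prime] (K K' : Type) [Field K] [NumberField K] [Field K']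
  [NumberField K'] [Algebra K K'], IsGalois K K' → (∀ z : K', z ^ p = 1 → z = 1) →
  ∀ σ : K' ≃ₐ[K] K', (∀ τ : K' ≃ₐ[K] K', ∃ i : ℕ, τ = σ ^ i) →
  ∀ f h : K', f ≠ 0 → h ≠ 0 → σ f = f * h ^ p →
    ∃ (b : K) (j : K'), b ≠ 0 ∧ j ≠ 0 ∧ f = algebraMap K K' b * j ^ p

/-- OL/ORB: fixed classes modulo `p`-th powers -/
def S_ORB : Prop := ∀ (p : ℕ) [Fact p.Prime] (K' : Type) [Field K'] (σ : K' ≃+* K')
  (C : K' → Prop), (∀ x, (σ ^ p) x = x) → (∀ f : K', f ≠ 0 → C f → C (σ f / f)) →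
  ∀ f : K', f ≠ 0 → C f → (¬ ∃ y : K', f = y ^ p) →
  ∃ f' h : K', f' ≠ 0 ∧ h ≠ 0 ∧ C f' ∧ (¬ ∃ y : K', f' = y ^ p) ∧ σ f' = f' * h ^ p

/-- OL/GAL: Galois theory of a square of fields -/
def S_GAL : Prop := ∀ (p : ℕ) [Fact p.Prime] (F F' K K' : Type) [Field F] [NumberField F]
  [Field F'] [NumberField F'] [Field K] [NumberField K] [Field K'] [NumberField K'] [Algebra F F']
  [Algebra F K] [Algebra F K'] [Algebra F' K'] [Algebra K K'] [IsScalarTower F F' K']
  [IsScalarTower F K K'], IsGalois F F' → finrank F F' = p → IsGalois K K' → finrank K K' = p →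
  IntermediateField.adjoin K (Set.range (algebraMap F' K')) = ⊤ →
  finrank F' K' = finrank F K ∧
  (∀ b : K, Algebra.norm F' (algebraMap K K' b) = algebraMap F F' (Algebra.norm F b)) ∧
  (∃ σ : K' ≃ₐ[K] K', (∀ x, (σ ^ p) x = x) ∧ ∀ τ : K' ≃ₐ[K] K', ∃ i : ℕ, τ = σ ^ i) ∧
  ∀ σ : K' ≃ₐ[K] K', ∃ τ : F' ≃ₐ[F] F', (∀ x : F', σ (algebraMap F' K' x) =
    algebraMap F' K' (τ x)) ∧ ∀ f : K', Algebra.norm F' (σ f) = τ (Algebra.norm F' f)

/-- OL/RTF: `p`-th roots in a Galois extension without roots of unity of order `p` -/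
def S_RTF : Prop := ∀ (p : ℕ) [Fact p.Prime] (F F' : Type) [Field F] [NumberField F] [Field F']
  [NumberField F'] [Algebra F F'], IsGalois F F' → (∀ z : F', z ^ p = 1 → z = 1) →
  ∀ (x : F) (y : F'), algebraMap F F' x = y ^ p → ∃ z : F, x = z ^ p ∧ algebraMap F F' z = y

/-- OL/STP: the property `PPP` goes up -/
def S_STP : Prop := ∀ (p : ℕ) [Fact p.Prime], 2 < p → ∀ (F F' K K' : Type) [Field F]
  [NumberField F] [Field F'] [NumberField F'] [Field K] [NumberField K] [Field K'] [NumberField K']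
  [Algebra F F'] [Algebra F K] [Algebra F K'] [Algebra F' K'] [Algebra K K'] [IsScalarTower F F' K']
  [IsScalarTower F K K'], IsGalois ℚ F' → IsGalois F F' → finrank F F' = p → IsGalois K K' →
  finrank K K' = p → IntermediateField.adjoin K (Set.range (algebraMap F' K')) = ⊤ →
  ¬ p ∣ finrank F K → NoMu p K' →
  (∀ q : ℕ, q.Prime → q ≠ p → Unram F' q ∨
    ∀ u : HeightOneSpectrum (𝓞 F), (q : 𝓞 F) ∈ u.asIdeal → NS K u) →
  PPP p F K → PPP p F' K'

/-- OL/NSP: nonsplit primes in the composite (from `Pool.Agent.Y758.LC.nsb`) -/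
def S_NSP : Prop := ∀ (p : ℕ) [Fact p.Prime] (r : ℕ) (k F K : Type) [Field k] [NumberField k]
  [Field F] [NumberField F] [Field K] [NumberField K] [Algebra k K] [Algebra F K], IsGalois ℚ F →
  finrank ℚ F = p ^ r → IntermediateField.adjoin k (Set.range (algebraMap F K)) = ⊤ →
  ¬ p ∣ finrank ℚ k → ∀ q : ℕ, q.Prime → NSQ k q →
  ∀ u : HeightOneSpectrum (𝓞 F), (q : 𝓞 F) ∈ u.asIdeal → NS K u

/-- OL/DGP: degrees of the composite -/
def S_DGP : Prop := ∀ (p : ℕ) [Fact p.Prime] (r : ℕ) (k F K : Type) [Field k] [NumberField k]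
  [Field F] [NumberField F] [Field K] [NumberField K] [Algebra k K] [Algebra F K], IsGalois ℚ F →
  finrank ℚ F = p ^ r → IntermediateField.adjoin k (Set.range (algebraMap F K)) = ⊤ →
  ¬ p ∣ finrank ℚ k → finrank F K = finrank ℚ k ∧ finrank k K = p ^ r ∧ IsGalois k K

/-- OL/IDP: the property `PPP` for composites -/
def S_IDP : Prop := ∀ (p : ℕ) [Fact p.Prime], 2 < p → ∀ (r : ℕ) (k F K : Type) [Field k]
  [NumberField k] [Field F] [NumberField F] [Field K] [NumberField K] [Algebra k K] [Algebra F K],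
  IsGalois ℚ F → finrank ℚ F = p ^ r →
  IntermediateField.adjoin k (Set.range (algebraMap F K)) = ⊤ → ¬ p ∣ finrank ℚ k →
  (∀ q : ℕ, q.Prime → q ≠ p → Unram F q ∨ NSQ k q) → NoMu p k → VP p k → PPP p F K

/-- OL/RTP: relative units close to `1` are `p`-th powers of relative units close to `1` -/
def S_RTP : Prop := ∀ (p : ℕ) [Fact p.Prime], 2 < p → ∀ (F K : Type) [Field F] [NumberField F]
  [Field K] [NumberField K] [Algebra F K], NoMu p K → PPP p F K →
  ∀ M : ℕ, 2 ≤ M → ∀ z : (𝓞 K)ˣ, Algebra.norm F (((z : 𝓞 K) : K)) = 1 →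
    (p : 𝓞 K) ^ M ∣ (z : 𝓞 K) - 1 →
    ∃ w : (𝓞 K)ˣ, Algebra.norm F (((w : 𝓞 K) : K)) = 1 ∧ w ^ p = z ∧
      (p : 𝓞 K) ^ (M - 1) ∣ (w : 𝓞 K) - 1

/-- OL/LEP -/
def S_LEP : Prop := ∀ (p : ℕ) [Fact p.Prime], 2 < p → ∀ (F K : Type) [Field F] [NumberField F]
  [Field K] [NumberField K] [Algebra F K], ¬ p ∣ finrank F K → NoMu p K → PPP p F K →
  Top F p → Top K p

/-- OL/EXF: the cubic field of discriminant 148, the units at 5 -/
def S_EXF : Prop := ∀ (k : Type) [Field k] [NumberField k] (α : k), finrank ℚ k = 3 →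
  α ^ 3 - α ^ 2 - 3 * α + 1 = 0 → ∀ a b : ℕ, a < 5 → b < 5 → ¬ (a = 0 ∧ b = 0) →
  ¬ ∀ v : HeightOneSpectrum (𝓞 k), (5 : 𝓞 k) ∈ v.asIdeal → UnP 5 v (α ^ a * (α - 2) ^ b)

/-- OL/EXG: units modulo fifth powers -/
def S_EXG : Prop := ∀ (k : Type) [Field k] [NumberField k], finrank ℚ k = 3 → IsTotallyReal k →
  ∀ e : Fin 2 → (𝓞 k)ˣ, (∀ a : Fin 2 → Fin 5, a ≠ 0 → ¬ ∃ w : (𝓞 k)ˣ,
    ∏ i, e i ^ (a i : ℕ) = w ^ 5) →
  ∀ η : (𝓞 k)ˣ, ∃ (a : Fin 2 → Fin 5) (w : (𝓞 k)ˣ), η = (∏ i, e i ^ (a i : ℕ)) * w ^ 5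

/-- OL/EXV -/
def S_EXV : Prop := ∀ (k : Type) [Field k] [NumberField k] (α : k), finrank ℚ k = 3 →
  α ^ 3 - α ^ 2 - 3 * α + 1 = 0 → VP 5 k

/-- OL/INF: infinitely many nonsplit primes congruent to `1` modulo `p` -/
def S_INF : Prop := ∀ (p : ℕ) [Fact p.Prime] (k : Type) [Field k] [NumberField k],
  (finrank ℚ k).Prime → ¬ finrank ℚ k ∣ p - 1 →
  {q : ℕ | q.Prime ∧ q % p = 1 ∧ ∀ P P' : Ideal (𝓞 k), P.IsPrime → P'.IsPrime →
    (q : 𝓞 k) ∈ P → (q : 𝓞 k) ∈ P' → P = P'}.Infinite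

end Pool.Agent.N848.OL
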