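import Mathlib
import Pool.Agent.N848.OL.Stm
import Pool.Agent.Y18.LC.Omega2

set_option autoImplicit false

namespace Pool.Agent.N848.OL

open NumberField IsDedekindDomain Module WithZero
open Pool.Agent.N848.LT (Ab NS NSQ S_UP S_INT)
open Pool.Agent.Y18.LC (Unram exists_q)

lemma UnP.of_pow {p : ℕ} {K : Type} [Field K] [NumberField K] {v : HeightOneSpectrum (𝓞 K)}
    {a b h : K} (hU : UnP p v a) (e : a = b * h ^ p) : UnP p v b := by
  obtain ⟨y, h1, h2⟩ := hU
  have h3 : b * (h * y) ^ p = a * y ^ p := by rw [e]; ring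
  exact ⟨h * y, by rw [h3]; exact h1, by rw [h3]; exact h2⟩

lemma UnP.div {p : ℕ} {K : Type} [Field K] [NumberField K] {v : HeightOneSpectrum (𝓞 K)}
    {a b : K} (ha : UnP p v a) (hb : UnP p v b) : UnP p v (a / b) := by
  obtain ⟨y, h1, h2⟩ := ha
  obtain ⟨z, h3, h4⟩ := hb
  have h5 : b * z ^ p ≠ 0 := by
    intro h0
    rw [h0, map_zero] at h3
    exact zero_ne_one h3
  have h6 : a / b * (y / z) ^ p = (a * y ^ p) / (b * z ^ p) := by
    rw [div_pow, div_mul_div_comm]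
  refine ⟨y / z, ?_, ?_⟩
  · rw [h6, map_div₀, h1, h3, div_one]
  · have h7 : a * y ^ p / (b * z ^ p) - 1 = ((a * y ^ p - 1) - (b * z ^ p - 1)) / (b * z ^ p) := by
      rw [eq_div_iff h5, sub_mul, div_mul_cancel₀ _ h5]
      ring
    rw [h6, h7, map_div₀, h3, div_one]
    exact (Valuation.map_sub _ _ _).trans (max_le h2 h4)

lemma unp_away {p : ℕ} {K : Type} [Field K] [NumberField K] {v : HeightOneSpectrum (𝓞 K)}
    (hv : (p : 𝓞 K) ∉ v.asIdeal) {b y : K} (h : v.valuation K (b * y ^ p) = 1) : UnP p v b := by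
  refine ⟨y, h, ?_⟩
  have h1 : v.valuation K (p : K) = 1 := by
    have h2 : v.valuation K (algebraMap (𝓞 K) K (p : 𝓞 K)) ≤ 1 := v.valuation_le_one _
    have h3 : ¬ v.valuation K (algebraMap (𝓞 K) K (p : 𝓞 K)) < 1 := by
      rw [HeightOneSpectrum.valuation_lt_one_iff_mem]
      exact hv
    rw [map_natCast] at h2 h3
    exact le_antisymm h2 (not_lt.1 h3)
  rw [map_pow, h1, one_pow]
  refine (Valuation.map_sub _ _ _).trans (max_le h.le ?_)
  rw [map_one]

theorem t_STP (hVFP : S_VFP) (hRMP : S_RMP) (hVFR : S_VFR) (hNMT : S_NMT) (hHLP : S_HLP)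
    (hORB : S_ORB) (hGAL : S_GAL) (hRTF : S_RTF) (hSGM : S_SGM) : S_STP := by
  intro p hp hp2 F F' K K' _ _ _ _ _ _ _ _ _ _ _ _ _ _ _ hGQ hGF hdF hGK hdK hadj hn hmu hram
    hPP f hf0 hfU hfN
  by_contra hnp
  obtain ⟨-, hnb, ⟨σ, hσp, hσg⟩, hres⟩ := hGAL p F F' K K' hGF hdF hGK hdK hadj
  have hz := hNMT p hp2 K' hmu
  have hzF : ∀ z : F', z ^ p = 1 → z = 1 := by
    intro z h
    apply (algebraMap F' K').injective
    rw [map_one]
    apply hz
    rw [← map_pow, h, map_one]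
  obtain ⟨τ, hτ1, hτ2⟩ := hres σ
  have hpow : ∀ (n : ℕ) (x : K'), ((σ.toRingEquiv : K' ≃+* K') ^ n) x = (σ ^ n) x := by
    intro n
    induction n with
    | zero => intro x; rfl
    | succ n ih =>
      intro x
      rw [pow_succ, pow_succ]
      exact ih (σ x)
  obtain ⟨f', h, hf', hh, ⟨hC1, c, hc⟩, hnp', he⟩ := hORB p K' σ.toRingEquiv
    (fun f => (∀ w : HeightOneSpectrum (𝓞 K'), UnP p w f) ∧ ∃ c : F', Algebra.norm F' f = c ^ p)
    (fun x => by rw [hpow]; exact hσp x)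
    (by
      rintro g hg ⟨h1, c, hc⟩
      refine ⟨fun w => (hSGM p hp2 K K' g hg h1 σ w).div (h1 w), τ c / c, ?_⟩
      show Algebra.norm F' (σ g / g) = _
      rw [div_eq_mul_inv, map_mul, Algebra.norm_inv, hτ2, hc, map_pow, div_pow, div_eq_mul_inv])
    f hf0 ⟨hfU, hfN⟩ hnp
  obtain ⟨b, j, hb0, hj0, hbj⟩ := hHLP p K K' hGK hz σ hσg f' h hf' hh he
  -- the norm of `b`
  have hNj : Algebra.norm F' j ≠ 0 := Algebra.norm_ne_zero_iff.2 hj0
  have h8 : algebraMap F F' (Algebra.norm F b) = (c / Algebra.norm F' j) ^ p := by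
    rw [← hnb, div_pow, eq_div_iff (pow_ne_zero p hNj), ← map_pow, ← map_mul, ← hbj, hc]
  obtain ⟨z, hz1, -⟩ := hRTF p F F' hGF hzF _ _ h8
  have hbw : ∀ w : HeightOneSpectrum (𝓞 K'), UnP p w (algebraMap K K' b) := fun w =>
    (hC1 w).of_pow hbj
  have hbv : ∀ v : HeightOneSpectrum (𝓞 K), UnP p v b := by
    intro v
    by_cases hv : (p : 𝓞 K) ∈ v.asIdeal
    · exact hVFP p hp2 K K' hGK hdK hmu v hv b hb0 (fun w _ => hbw w)
    · obtain ⟨q, hq, hqv⟩ := exists_q v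
      have hqp : q ≠ p := by
        rintro rfl
        exact hv hqv
      rcases hram q hq hqp with hun | hns
      · obtain ⟨w, -, hw⟩ := hRMP F' K K' hGQ hadj q hq hun v hqv
        obtain ⟨y, hy, -⟩ := hbw w
        have hy0 : y ≠ 0 := by
          rintro rfl
          rw [zero_pow hp.out.ne_zero, mul_zero, map_zero] at hy
          exact zero_ne_one hy
        obtain ⟨β, hβ⟩ : ∃ β : ℤ, w.valuation K' y = exp β :=
          ⟨_, (WithZero.exp_log ((Valuation.ne_zero_iff _).2 hy0)).symm⟩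
        obtain ⟨π, hπ⟩ := v.valuation_exists_uniformizer K
        refine unp_away hv (y := π ^ (-β)) ?_
        rw [map_mul, hw, map_pow, hβ] at hy
        rw [map_mul, map_pow, map_zpow₀, hπ, ← WithZero.exp_zsmul]
        have h9 : (-β) • (-1 : ℤ) = β := by simp
        rw [h9]
        exact hy
      · have hab : Ab v (v.under (𝓞 F)) := rfl
        obtain ⟨y, hy⟩ := hVFR p F K hn (v.under (𝓞 F)) (hns _ (by
          show (q : 𝓞 F) ∈ v.asIdeal.comap (algebraMap (𝓞 F) (𝓞 K))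
          rw [Ideal.mem_comap, map_natCast]
          exact hqv)) v hab b z hb0 hz1
        exact unp_away hv hy
  obtain ⟨y, hy⟩ := hPP b hb0 hbv ⟨z, hz1⟩
  exact hnp' ⟨algebraMap K K' y * j, by rw [hbj, hy, map_pow, mul_pow]⟩

end Pool.Agent.N848.OL
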