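import Mathlib
import Pool.Agent.N848.OL.Stm

set_option autoImplicit false

namespace Pool.Agent.N848.OL

open NumberField IsDedekindDomain Module WithZero
open Pool.Agent.N848.LT (Ab NS NSQ S_UP S_INT)

lemma one_lt_inv_of_lt_one₀' {a : ℤᵐ⁰} (h0 : 0 < a) (h1 : a < 1) : 1 < a⁻¹ :=
  (one_lt_inv₀ h0).2 h1

lemma norm_one_lt (hINT : S_INT) {F K : Type} [Field F] [NumberField F] [Field K] [NumberField K]
    [Algebra F K] (u : HeightOneSpectrum (𝓞 F)) (hNS : NS K u) (v : HeightOneSpectrum (𝓞 K))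
    (hv : Ab v u) (x : K) (hx : Algebra.norm F x = 1) : ¬ v.valuation K x < 1 := by
  intro hlt
  obtain ⟨π, hπ⟩ := u.valuation_exists_uniformizer F
  have hπ0 : π ≠ 0 := by
    rintro rfl
    rw [map_zero] at hπ
    exact (WithZero.coe_ne_zero hπ.symm).elim
  have hπ1 : u.valuation F π < 1 := by
    rw [hπ, ← WithZero.exp_zero, WithZero.exp_lt_exp]
    norm_num
  have hπK : v.valuation K (algebraMap F K π) ≠ 0 := by
    rw [Ne, Valuation.zero_iff, map_eq_zero]
    exact hπ0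
  obtain ⟨m, hm⟩ := exists_pow_lt₀ hlt (Units.mk0 _ hπK)
  have ht : ∀ v' : HeightOneSpectrum (𝓞 K), Ab v' u →
      v'.valuation K (x ^ m / algebraMap F K π) ≤ 1 := by
    intro v' hv'
    rw [hNS v' v hv' hv, map_div₀, map_pow]
    exact (div_le_one₀ (zero_lt_iff.2 hπK)).2 hm.le
  obtain ⟨h1, -, -⟩ := hINT F K u _ ht
  rw [div_eq_mul_inv, map_mul, Algebra.norm_inv, map_pow, hx, one_pow, Algebra.norm_algebraMap,
    one_mul, map_inv₀, map_pow] at h1
  have h2 : u.valuation F π ^ finrank F K < 1 := pow_lt_one₀ zero_le hπ1 finrank_pos.ne'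
  have h3 : 0 < u.valuation F π ^ finrank F K := by
    apply pow_pos
    exact zero_lt_iff.2 ((Valuation.ne_zero_iff _).2 hπ0)
  exact absurd (one_lt_inv_of_lt_one₀' h3 h2) (not_lt.2 h1)

lemma norm_one_eq (hINT : S_INT) {F K : Type} [Field F] [NumberField F] [Field K] [NumberField K]
    [Algebra F K] (u : HeightOneSpectrum (𝓞 F)) (hNS : NS K u) (v : HeightOneSpectrum (𝓞 K))
    (hv : Ab v u) (x : K) (hx : Algebra.norm F x = 1) : v.valuation K x = 1 := by
  have h1 := norm_one_lt hINT u hNS v hv x hx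
  have h2 := norm_one_lt hINT u hNS v hv x⁻¹ (by rw [Algebra.norm_inv, hx, inv_one])
  rcases lt_trichotomy (v.valuation K x) 1 with h | h | h
  · exact absurd h h1
  · exact h
  · exfalso
    apply h2
    rw [map_inv₀]
    exact inv_lt_one_of_one_lt₀ h

theorem t_VFR (hINT : S_INT) : S_VFR := by
  intro p hp F K _ _ _ _ _ hn u hNS v hv b c hb hc
  have hc0 : c ≠ 0 := by
    rintro rfl
    rw [zero_pow hp.out.ne_zero] at hc
    exact hb (Algebra.norm_eq_zero_iff.1 hc)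
  have hN0 : algebraMap F K (Algebra.norm F b) ≠ 0 := by
    rw [Ne, map_eq_zero]
    exact Algebra.norm_ne_zero_iff.2 hb
  have h1 : v.valuation K (b ^ finrank F K / algebraMap F K (Algebra.norm F b)) = 1 := by
    apply norm_one_eq hINT u hNS v hv
    rw [div_eq_mul_inv, map_mul, Algebra.norm_inv, map_pow, Algebra.norm_algebraMap]
    exact mul_inv_cancel₀ (pow_ne_zero _ (Algebra.norm_ne_zero_iff.2 hb))
  rw [map_div₀, div_eq_one_iff_eq ((Valuation.ne_zero_iff _).2 hN0), hc, map_pow, map_pow,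
    map_pow] at h1
  obtain ⟨β, hβ⟩ : ∃ β : ℤ, v.valuation K b = exp β :=
    ⟨_, (WithZero.exp_log ((Valuation.ne_zero_iff _).2 hb)).symm⟩
  have hcK : v.valuation K (algebraMap F K c) ≠ 0 := by
    rw [Ne, Valuation.zero_iff, map_eq_zero]
    exact hc0
  obtain ⟨γ, hγ⟩ : ∃ γ : ℤ, v.valuation K (algebraMap F K c) = exp γ :=
    ⟨_, (WithZero.exp_log hcK).symm⟩
  rw [hβ, hγ, ← WithZero.exp_nsmul, ← WithZero.exp_nsmul] at h1
  have h2 := WithZero.exp_injective h1
  simp only [nsmul_eq_mul] at h2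
  have h3 : (p : ℤ) ∣ β := by
    have h4 : (p : ℤ) ∣ (finrank F K : ℤ) * β := ⟨γ, h2⟩
    have h5 : IsCoprime (p : ℤ) (finrank F K : ℤ) :=
      Nat.isCoprime_iff_coprime.2 ((Nat.Prime.coprime_iff_not_dvd hp.out).2 hn)
    exact h5.dvd_of_dvd_mul_left h4
  obtain ⟨δ, hδ⟩ := h3
  obtain ⟨π, hπ⟩ := v.valuation_exists_uniformizer K
  refine ⟨π ^ δ, ?_⟩
  rw [map_mul, map_pow, map_zpow₀, hπ, hβ, hδ]
  rw [← WithZero.exp_zsmul, ← WithZero.exp_nsmul, ← WithZero.exp_add, ← WithZero.exp_zero]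
  congr 1
  simp only [smul_eq_mul, nsmul_eq_mul]
  ring

end Pool.Agent.N848.OL
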