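import Mathlib
import Pool.Agent.N848.OL.Stm
import Pool.Agent.N848.LT.Leaves
import Pool.Agent.N285.OL.IMP
import Pool.Agent.N75.OL.APP
import Pool.Agent.N218.OL.MUZ
import Pool.Agent.N727.OL.CNJ
import Pool.Agent.N359.OL.SGM
import Pool.Agent.N527.OL.VFP
import Pool.Agent.N135.OL.RMP
import Pool.Agent.N848.OL.VFR
import Pool.Agent.N899.OL.NMT
import Pool.Agent.N655.OL.NMD
import Pool.Agent.N136.OL.MUU
import Pool.Agent.N327.OL.NMK
import Pool.Agent.N848.OL.HLP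
import Pool.Agent.N507.OL.ORB
import Pool.Agent.N111.OL.GAL
import Pool.Agent.N950.OL.RTF
import Pool.Agent.N848.OL.STP
import Pool.Agent.N328.OL.NSP
import Pool.Agent.N31.OL.DGP
import Pool.Agent.N733.OL.IDP
import Pool.Agent.N118.OL.RTP
import Pool.Agent.N409.OL.LEP
import Pool.Agent.N664.OL.EXF
import Pool.Agent.N707.OL.EXG
import Pool.Agent.N806.OL.EXV
import Pool.Agent.N18.OL.INF

/-!
# Project OL: all parts together
-/

set_option autoImplicit false

namespace Pool.Agent.N848.OL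

theorem imp : S_IMP := Pool.Agent.N285.OL.t_IMP
theorem app : S_APP := Pool.Agent.N75.OL.APP.t_APP
theorem muz : S_MUZ := Pool.Agent.N218.OL.t_MUZ
theorem cnj : S_CNJ := Pool.Agent.N727.OL.t_CNJ
theorem sgm : S_SGM := Pool.Agent.N359.OL.t_SGM app cnj
theorem vfp : S_VFP := Pool.Agent.N527.OL.t_VFP imp app muz cnj Pool.Agent.N848.LT.up
theorem rmp : S_RMP := Pool.Agent.N135.OL.t_RMP
theorem vfr : S_VFR := t_VFR Pool.Agent.N848.LT.int
theorem nmt : S_NMT := Pool.Agent.N899.OL.NMT.t_NMT muz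
theorem nmd : S_NMD := Pool.Agent.N655.OL.t_NMD Pool.Agent.N848.LT.up
theorem muu : S_MUU := Pool.Agent.N136.OL.t_MUU
theorem nmk : S_NMK := Pool.Agent.N327.OL.t_NMK
theorem hlp : S_HLP := t_HLP
theorem orb : S_ORB := Pool.Agent.N507.OL.ORB.t_ORB
theorem gal : S_GAL := Pool.Agent.N111.OL.t_GAL
theorem rtf : S_RTF := Pool.Agent.N950.OL.t_RTF
theorem stp : S_STP := t_STP vfp rmp vfr nmt hlp orb gal rtf sgm
theorem nsp : S_NSP := Pool.Agent.N328.OL.t_NSP
theorem dgp : S_DGP := Pool.Agent.N31.OL.t_DGP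
theorem idp : S_IDP := Pool.Agent.N733.OL.t_IDP stp nsp dgp muu
theorem rtp : S_RTP := Pool.Agent.N118.OL.t_RTP muz nmt nmd
theorem lep : S_LEP := Pool.Agent.N409.OL.LEP.t_LEP Pool.Agent.N848.LT.int rtp
theorem exf : S_EXF := Pool.Agent.N664.OL.EXF.t_EXF
theorem exg : S_EXG := Pool.Agent.N707.OL.t_EXG
theorem exv : S_EXV := Pool.Agent.N806.OL.EXV.t_EXV Pool.Agent.N848.LT.exP
  Pool.Agent.N848.LT.exr exf exg
theorem inf : S_INF := Pool.Agent.N18.OL.t_INF

end Pool.Agent.N848.OL
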