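import Mathlib
import Pool.Agent.N848.OL.Stm
import Pool.Agent.N848.LT.Fin
import Pool.Agent.N848.LT.Sig
import Pool.Agent.Y944.LC.TA

/-!
# Project OL: the main theorem for subfields of a large field
-/

set_option autoImplicit false

namespace Pool.Agent.N848.OL

open NumberField IsDedekindDomain Module Pool.Agent.H637R2.Leo Pool.Agent.Y18.LC
open Pool.Agent.N848.LT (Ab NS NSQ NoUnr Un Base leo_sup nsq_of ab_sub leo_abelian le_sup_finite
  sigF_real treal_le)

/-- abstract form, odd `p` -/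
theorem main_odd (hIDP : S_IDP) (hLEP : S_LEP) (hDGP : S_DGP) (hMUU : S_MUU) (hNMT : S_NMT)
    (hNMD : S_NMD) (p : ℕ) [hp : Fact p.Prime] (hp2 : 2 < p) (r : ℕ)
    (k F K : Type) [Field k] [NumberField k] [Field F] [NumberField F]
    [Field K] [NumberField K] [Algebra k K] [Algebra F K] (hG : IsGalois ℚ F)
    (hF : finrank ℚ F = p ^ r)
    (hadj : IntermediateField.adjoin k (Set.range (algebraMap F K)) = ⊤)
    (hk : ¬ p ∣ finrank ℚ k) (hmu : NoMu p k)
    (hq : ∀ q : ℕ, q.Prime → q ≠ p → Unram F q ∨ NSQ k q) (hV : VP p k)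
    (hL : Leopoldt F p) : Top K p := by
  obtain ⟨hd, hd2, hgal⟩ := hDGP p r k F K hG hF hadj hk
  have hmuK : NoMu p K := hMUU p r k K hgal hd2 hmu
  have hmuF : NoMu p F := hNMD p F K hmuK
  refine hLEP p hp2 F K (by rw [hd]; exact hk) hmuK
    (hIDP p hp2 r k F K hG hF hadj hk hq hmu hV) ?_
  refine Pool.Agent.Y944.LC.ta F p ?_ hL
  intro ζ hζ
  have h1 : (((ζ : 𝓞 F) : F)) ^ p = 1 := by
    have h2 := congrArg (fun z : (𝓞 F)ˣ => ((z : 𝓞 F) : F)) hζ
    simpa using h2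
  have h3 := hNMT p hp2 F hmuF _ h1
  apply Units.ext
  apply RingOfIntegers.ext
  simpa using h3

variable {Ω : Type} [Field Ω] [CharZero Ω]

/-- the hypotheses on the base field -/
def BaseP (p : ℕ) (k : IntermediateField ℚ Ω) : Prop :=
  ∃ _ : NumberField k, ¬ p ∣ finrank ℚ k ∧ VP p k ∧ (p = 2 → NonS k 2) ∧ (p ≠ 2 → NoMu p k)

lemma un_iff {K : Type} [Field K] [NumberField K] (v : HeightOneSpectrum (𝓞 K)) (b : K) :
    UnP 2 v b ↔ Un v b := by
  unfold UnP Un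
  have h : (((2 : ℕ) : K)) ^ 2 = 4 := by norm_num
  rw [h]

lemma noUnr_of {K : Type} [Field K] [NumberField K] (h : VP 2 K) : NoUnr K := by
  intro b hb hU
  obtain ⟨y, hy⟩ := h b hb (fun v => (un_iff v b).2 (hU v))
  exact ⟨y, by rw [hy]; ring⟩

lemma vp_of {K : Type} [Field K] [NumberField K] (h : NoUnr K) : VP 2 K := by
  intro b hb hU
  obtain ⟨y, hy⟩ := h b hb (fun v => (un_iff v b).1 (hU v))
  exact ⟨y, by rw [hy]; ring⟩

lemma base_of {k : IntermediateField ℚ Ω} (h : BaseP 2 k) : Base k := by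
  obtain ⟨hn, h1, h2, h3, -⟩ := h
  exact ⟨hn, Nat.odd_iff.2 (by omega), h3 rfl, noUnr_of h2⟩

lemma of_base {k : IntermediateField ℚ Ω} (h : Base k) : BaseP 2 k := by
  obtain ⟨hn, h1, h2, h3⟩ := h
  refine ⟨hn, ?_, vp_of h3, fun _ => h2, fun h => absurd rfl h⟩
  rw [← even_iff_two_dvd, Nat.not_even_iff_odd]
  exact h1

theorem leo_supP (hIDP : S_IDP) (hLEP : S_LEP) (hDGP : S_DGP) (hMUU : S_MUU) (hNMT : S_NMT)
    (hNMD : S_NMD) (p : ℕ) [hp : Fact p.Prime]
    (k F : IntermediateField ℚ Ω) (hk : BaseP p k) (hG : IsGalois ℚ F) (r : ℕ)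
    (hF : finrank ℚ F = p ^ r)
    (hq : ∀ q : ℕ, q.Prime → q ≠ p → (Ideal.span {(q : 𝓞 F)}).IsRadical ∨ NonS k q)
    (hL : LeoF F p) : LeoF (k ⊔ F) p := by
  have hfF : FiniteDimensional ℚ F := by
    apply FiniteDimensional.of_finrank_pos
    rw [hF]
    exact pow_pos hp.out.pos r
  by_cases hp2 : p = 2
  · subst hp2
    have hB := base_of hk
    refine leo_sup Pool.Agent.N848.LT.ind Pool.Agent.N848.LT.leo Pool.Agent.N848.LT.nsg
      Pool.Agent.N848.LT.deg Pool.Agent.N848.LT.tat k F hB hG r hF ?_ hL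
    intro q hqp
    by_cases hq2 : q = 2
    · right
      rw [hq2]
      exact hB.choose_spec.2.1
    · exact hq q hqp hq2
  have hp3 : 2 < p := lt_of_le_of_ne hp.out.two_le (Ne.symm hp2)
  obtain ⟨hnk, hodd, hV, -, hmu⟩ := hk
  obtain ⟨hnF, hLF⟩ := hL
  have hfk : FiniteDimensional ℚ k := by
    have h1 : FiniteDimensional ℚ (k : Type) := hnk.to_finiteDimensional
    apply FiniteDimensional.of_finrank_pos
    rw [finrank_congr (RingEquiv.refl k)]
    exact finrank_pos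
  have hnK : NumberField ↥(k ⊔ F) := nf_of _ inferInstance
  refine ⟨hnK, Pool.Agent.Y944.LC.tb ↥(k ⊔ F) p ?_⟩
  letI algk : Algebra k ↥(k ⊔ F) :=
    (IntermediateField.inclusion (le_sup_left : k ≤ k ⊔ F)).toRingHom.toAlgebra
  letI algF : Algebra F ↥(k ⊔ F) :=
    (IntermediateField.inclusion (le_sup_right : F ≤ k ⊔ F)).toRingHom.toAlgebra
  refine main_odd hIDP hLEP hDGP hMUU hNMT hNMD p hp3 r k F ↥(k ⊔ F) ?_ ?_ ?_ ?_ (hmu hp2)
    (fun q hqp hne => (hq q hqp hne).imp id nsq_of) hV hLF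
  · exact IsGalois.of_algEquiv (ratE (RingEquiv.refl F))
  · rw [← finrank_congr (RingEquiv.refl F)]
    exact hF
  · set ι : ↥(k ⊔ F) →+* Ω := algebraMap _ Ω with hι
    have h3 := adjoin_top' ι k F (fun x hx => ⟨⟨x, hx⟩, rfl⟩) (fun y => y.2) k
      (fun x hx => ⟨⟨x, hx⟩, rfl⟩)
    have h4 : (cm ι F : Set ↥(k ⊔ F)) = Set.range (algebraMap F ↥(k ⊔ F)) := by
      ext y
      constructor
      · intro hy
        exact ⟨⟨ι y, hy⟩, Subtype.ext rfl⟩
      · rintro ⟨z, rfl⟩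
        exact z.2
    rw [h4] at h3
    exact h3
  · rw [← finrank_congr (RingEquiv.refl k)]
    exact hodd

/-- abelian extensions, all of whose finite subextensions have `p`-power degree -/
def AbP (p : ℕ) (A : IntermediateField ℚ Ω) : Prop :=
  IsGalois ℚ A ∧ (∀ g h : A ≃ₐ[ℚ] A, g * h = h * g) ∧
    ∀ F : IntermediateField ℚ Ω, F ≤ A → FiniteDimensional ℚ F → ∃ r : ℕ, finrank ℚ F = p ^ r

/-- infinite abelian extensions -/
theorem leo_abelian_supP (hIDP : S_IDP) (hLEP : S_LEP) (hDGP : S_DGP) (hMUU : S_MUU)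
    (hNMT : S_NMT) (hNMD : S_NMD) (p : ℕ) [hp : Fact p.Prime]
    (k A : IntermediateField ℚ Ω) (hk : BaseP p k) (hA : AbP p A)
    (hq : ∀ q : ℕ, q.Prime → q ≠ p → (Ideal.span {(q : 𝓞 A)}).IsRadical ∨ NonS k q)
    (L : IntermediateField ℚ Ω) (hL : L ≤ k ⊔ A) (hf : FiniteDimensional ℚ L) : LeoF L p := by
  have halg : Algebra.IsAlgebraic ℚ A := by
    haveI : Normal ℚ A := hA.1.to_normal
    infer_instance
  obtain ⟨F, hFA, hFf, hLF⟩ := le_sup_finite k A L halg hf hL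
  obtain ⟨hG, hc⟩ := ab_sub hFA hA.1 hA.2.1
  obtain ⟨r, hr⟩ := hA.2.2 F hFA hFf
  have h1 : LeoF (k ⊔ F) p := leo_supP hIDP hLEP hDGP hMUU hNMT hNMD p k F hk hG r hr
    (fun q hqp hne => by
      rcases hq q hqp hne with h | h
      · exact Or.inl (unram_of_hom (IntermediateField.inclusion hFA).toRingHom hqp.ne_zero h)
      · exact Or.inr h) (leo_abelian F hFf hG hc p)
  exact LeoF_mono Pool.Agent.Y758.LC.dsc hLF hf h1

/-- finite Galois extensions -/
theorem leo_iffP (hIDP : S_IDP) (hLEP : S_LEP) (hDGP : S_DGP) (hMUU : S_MUU)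
    (hNMT : S_NMT) (hNMD : S_NMD) (p : ℕ) [hp : Fact p.Prime]
    (k F : IntermediateField ℚ Ω) (hk : BaseP p k) (hG : IsGalois ℚ F) (r : ℕ)
    (hF : finrank ℚ F = p ^ r)
    (hq : ∀ q : ℕ, q.Prime → q ≠ p → (Ideal.span {(q : 𝓞 F)}).IsRadical ∨ NonS k q) :
    LeoF (k ⊔ F) p ↔ LeoF F p := by
  constructor
  · intro h
    have hfF : FiniteDimensional ℚ F := by
      apply FiniteDimensional.of_finrank_pos
      rw [hF]
      exact pow_pos hp.out.pos r
    exact LeoF_mono Pool.Agent.Y758.LC.dsc le_sup_right hfF h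
  · exact leo_supP hIDP hLEP hDGP hMUU hNMT hNMD p k F hk hG r hF hq

/-- the Sigma-Leopoldt conjecture for the number fields in `k A` -/
theorem sigP (hIDP : S_IDP) (hLEP : S_LEP) (hDGP : S_DGP) (hMUU : S_MUU)
    (hNMT : S_NMT) (hNMD : S_NMD) (p : ℕ) [hp : Fact p.Prime]
    (k A : IntermediateField ℚ Ω) (hk : BaseP p k) (hkr : IsTotallyReal k) (hA : AbP p A)
    (hAr : IsTotallyReal A)
    (hq : ∀ q : ℕ, q.Prime → q ≠ p → (Ideal.span {(q : 𝓞 A)}).IsRadical ∨ NonS k q)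
    (F L : IntermediateField ℚ Ω) (hF : F ≤ k ⊔ A) (hL : L ≤ k ⊔ A)
    (hFf : FiniteDimensional ℚ F) (hLf : FiniteDimensional ℚ L) : SigAll F L p := by
  have halg : Algebra.IsAlgebraic ℚ A := by
    haveI : Normal ℚ A := hA.1.to_normal
    infer_instance
  have hfk : FiniteDimensional ℚ k := by
    obtain ⟨hnk, -⟩ := hk
    have h1 : FiniteDimensional ℚ (k : Type) := hnk.to_finiteDimensional
    apply FiniteDimensional.of_finrank_pos
    rw [finrank_congr (RingEquiv.refl k)]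
    exact finrank_pos
  intro K hFK hK hKc h2
  exact sigF_real F K L hFK hFf hK (treal_le k A F hfk hkr halg hAr hFf hF) hKc h2 hLf
    (treal_le k A L hfk hkr halg hAr hLf hL)
    (leo_abelian_supP hIDP hLEP hDGP hMUU hNMT hNMD p k A hk hA hq _ (sup_le hF hL) inferInstance)

end Pool.Agent.N848.OL
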