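import Mathlib
import Pool.Agent.N848.OL.Main
import Pool.Agent.N848.OL.Leaves
import Pool.Agent.N848.LT.Expl

/-!
# Project OL: final statements for subfields of a large field
-/

set_option autoImplicit false

namespace Pool.Agent.N848.OL

open NumberField IsDedekindDomain Module Pool.Agent.H637R2.Leo Pool.Agent.Y18.LC
open Pool.Agent.N848.LT (fin3 fin5 sqt S_SQT)

variable {Ω : Type} [Field Ω] [CharZero Ω]

theorem f1 (p : ℕ) [hp : Fact p.Prime] (k F : IntermediateField ℚ Ω) (hk : BaseP p k)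
    (hG : IsGalois ℚ F) (r : ℕ) (hF : finrank ℚ F = p ^ r)
    (hq : ∀ q : ℕ, q.Prime → q ≠ p → (Ideal.span {(q : 𝓞 F)}).IsRadical ∨ NonS k q) :
    LeoF (k ⊔ F) p ↔ LeoF F p :=
  leo_iffP idp lep dgp muu nmt nmd p k F hk hG r hF hq

theorem f2 (p : ℕ) [hp : Fact p.Prime] (k A : IntermediateField ℚ Ω) (hk : BaseP p k)
    (hA : AbP p A)
    (hq : ∀ q : ℕ, q.Prime → q ≠ p → (Ideal.span {(q : 𝓞 A)}).IsRadical ∨ NonS k q)
    (L : IntermediateField ℚ Ω) (hL : L ≤ k ⊔ A) (hf : FiniteDimensional ℚ L) : LeoF L p :=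
  leo_abelian_supP idp lep dgp muu nmt nmd p k A hk hA hq L hL hf

theorem f2s (p : ℕ) [hp : Fact p.Prime] (k A : IntermediateField ℚ Ω) (hk : BaseP p k)
    (hkr : IsTotallyReal k) (hA : AbP p A) (hAr : IsTotallyReal A)
    (hq : ∀ q : ℕ, q.Prime → q ≠ p → (Ideal.span {(q : 𝓞 A)}).IsRadical ∨ NonS k q)
    (F L : IntermediateField ℚ Ω) (hF : F ≤ k ⊔ A) (hL : L ≤ k ⊔ A)
    (hFf : FiniteDimensional ℚ F) (hLf : FiniteDimensional ℚ L) : SigAll F L p :=
  sigP idp lep dgp muu nmt nmd p k A hk hkr hA hAr hq F L hF hL hFf hLf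

/-- square roots -/
theorem f3 (k : IntermediateField ℚ Ω) (hk : BaseP 2 k) (L : IntermediateField ℚ Ω)
    (hL : L ≤ k ⊔ IntermediateField.adjoin ℚ {s : Ω | ∃ t : ℤ,
      (∀ q : ℕ, q.Prime → (q : ℤ) ∣ t → NonS k q) ∧ s ^ 2 = (t : Ω)})
    (hf : FiniteDimensional ℚ L) : LeoF L 2 := fin3 sqt k (base_of hk) L hL hf

/-- infinitely many nonsplit primes -/
theorem f4 (p : ℕ) [hp : Fact p.Prime] (k : IntermediateField ℚ Ω) (hk : (finrank ℚ k).Prime)
    (hkp : ¬ finrank ℚ k ∣ p - 1) : {q : ℕ | q.Prime ∧ q % p = 1 ∧ NonS k q}.Infinite := by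
  have hfk : FiniteDimensional ℚ k := by
    apply FiniteDimensional.of_finrank_pos
    exact hk.pos
  have hnf : NumberField k := nf_of k hfk
  have h1 : finrank ℚ (k : Type) = finrank ℚ k := (finrank_congr (RingEquiv.refl k)).symm
  exact inf p k (by rw [h1]; exact hk) (by rw [h1]; exact hkp)

/-- the cubic field of discriminant 148 -/
theorem f5 (α : Ω) (hα : α ^ 3 - α ^ 2 - 3 * α + 1 = 0) :
    BaseP 2 (IntermediateField.adjoin ℚ {α}) ∧ BaseP 5 (IntermediateField.adjoin ℚ {α}) ∧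
      finrank ℚ (IntermediateField.adjoin ℚ {α}) = 3 ∧
      IsTotallyReal (IntermediateField.adjoin ℚ {α}) ∧
      ¬ IsGalois ℚ (IntermediateField.adjoin ℚ {α}) := by
  obtain ⟨h1, h2, h3, h4⟩ := fin5 α hα
  have hfk : FiniteDimensional ℚ (IntermediateField.adjoin ℚ {α}) := by
    apply FiniteDimensional.of_finrank_pos
    rw [h2]
    norm_num
  have hnf : NumberField (IntermediateField.adjoin ℚ {α}) := nf_of _ hfk
  have h5 : finrank ℚ ((IntermediateField.adjoin ℚ {α} : IntermediateField ℚ Ω) : Type) = 3 := by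
    rw [← finrank_congr (RingEquiv.refl (IntermediateField.adjoin ℚ {α}))]
    exact h2
  set a : IntermediateField.adjoin ℚ {α} := ⟨α, IntermediateField.mem_adjoin_simple_self ℚ α⟩
    with ha
  have ha3 : a ^ 3 - a ^ 2 - 3 * a + 1 = 0 := by
    apply Subtype.ext
    show α ^ 3 - α ^ 2 - 3 * α + 1 = 0
    exact hα
  refine ⟨of_base h1, ⟨hnf, ?_, exv _ a h5 ha3, fun h => absurd h (by norm_num), fun _ => ?_⟩,
    h2, h3, h4⟩
  · rw [h2]
    norm_num
  · haveI : Fact (Nat.Prime 5) := ⟨by norm_num⟩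
    exact nmk 5 _ (by rw [h5]; norm_num)

end Pool.Agent.N848.OL
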