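import Mathlib
import Pool.Agent.N848.OL.Stm

set_option autoImplicit false

namespace Pool.Agent.N848.OL

open NumberField IsDedekindDomain Module

theorem t_HLP : S_HLP := by
  intro p _ K K' _ _ _ _ _ hG hz σ hσ f h hf hh e
  have h1 : Algebra.norm K (σ f) = Algebra.norm K f := Algebra.norm_eq_of_algEquiv σ f
  have h2 : Algebra.norm K f ≠ 0 := Algebra.norm_ne_zero_iff.2 hf
  have h3 : Algebra.norm K h ^ p = 1 := by
    rw [e, map_mul, map_pow] at h1
    exact mul_left_cancel₀ h2 (by rw [h1, mul_one])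
  have h4 : Algebra.norm K h = 1 := by
    have h5 : algebraMap K K' (Algebra.norm K h) = 1 := by
      apply hz
      rw [← map_pow, h3, map_one]
    apply (algebraMap K K').injective
    rw [h5, map_one]
  have hgen : ∀ τ : K' ≃ₐ[K] K', τ ∈ Subgroup.zpowers σ := by
    intro τ
    obtain ⟨i, hi⟩ := hσ τ
    exact ⟨i, by rw [hi]; simp⟩
  haveI hcyc : IsCyclic (K' ≃ₐ[K] K') := ⟨⟨σ, hgen⟩⟩
  obtain ⟨y, hy⟩ := groupCohomology.exists_div_of_norm_eq_one (K := K) (L := K') (g := σ) hgen h4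
  have hy0 : (y : K') ≠ 0 := y.ne_zero
  have hsy : σ (y : K') ≠ 0 := by
    rw [Ne, map_eq_zero]
    exact hy0
  have hfix : σ (f * (y : K') ^ p) = f * (y : K') ^ p := by
    rw [map_mul, map_pow, e, ← hy, mul_assoc, ← mul_pow, div_mul_cancel₀ _ hsy]
  have hall : ∀ τ : K' ≃ₐ[K] K', τ (f * (y : K') ^ p) = f * (y : K') ^ p := by
    intro τ
    obtain ⟨i, hi⟩ := hσ τ
    rw [hi]
    clear hi
    induction i with
    | zero => rfl
    | succ i ih =>
      rw [pow_succ, AlgEquiv.mul_apply, hfix, ih]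
  obtain ⟨b, hb⟩ := (IsGalois.mem_range_algebraMap_iff_fixed (F := K) (E := K') _).2 hall
  refine ⟨b, (y : K')⁻¹, ?_, inv_ne_zero hy0, ?_⟩
  · rintro rfl
    rw [map_zero] at hb
    exact mul_ne_zero hf (pow_ne_zero p hy0) hb.symm
  · rw [hb, inv_pow, mul_assoc, mul_inv_cancel₀ (pow_ne_zero p hy0), mul_one]

end Pool.Agent.N848.OL
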